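import Pool.Agent.L0h45.VL.Stm

/-! Module V4 of project VL (helper45), written by helper85. -/

set_option autoImplicit false

open Finset

namespace Pool.Agent.L0h85.VL

open Pool.Agent.L0h45.VL

/-- `∑ 1/√n ≤ 2√K` -/
theorem sum_inv_sqrt (K : ℕ) : ∑ n ∈ Icc 1 K, 1 / √(n : ℝ) ≤ 2 * √(K : ℝ) := by
  induction K with
  | zero => simp
  | succ K ih =>
    rw [Finset.sum_Icc_succ_top (by omega)]
    have h0 : (0 : ℝ) ≤ K := Nat.cast_nonneg K
    have h1 : 0 < √((K + 1 : ℕ) : ℝ) := Real.sqrt_pos.mpr (by positivity)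
    have h2 : √((K + 1 : ℕ) : ℝ) * √((K + 1 : ℕ) : ℝ) = (K : ℝ) + 1 := by
      rw [Real.mul_self_sqrt (by positivity)]; push_cast; ring
    have h3 : √(K : ℝ) * √(K : ℝ) = K := Real.mul_self_sqrt h0
    have h4 : 0 ≤ √(K : ℝ) := Real.sqrt_nonneg _
    have h5 : 1 / √((K + 1 : ℕ) : ℝ) ≤ 2 * √((K + 1 : ℕ) : ℝ) - 2 * √(K : ℝ) := by
      rw [div_le_iff₀ h1]
      nlinarith [sq_nonneg (√((K + 1 : ℕ) : ℝ) - √(K : ℝ))]
    linarith

/-- the weight `n ^ (-3/2)` -/
noncomputable def w (n : ℕ) : ℝ := 1 / ((n : ℝ) * √(n : ℝ))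

theorem w_nonneg (n : ℕ) : 0 ≤ w n := by unfold w; positivity

theorem sum_w_aux (K : ℕ) : ∑ n ∈ Icc 1 (K + 1), w n ≤ 3 - 2 / √((K + 1 : ℕ) : ℝ) := by
  induction K with
  | zero => simp [w]; norm_num
  | succ K ih =>
    rw [Finset.sum_Icc_succ_top (by omega)]
    set x := √((K + 1 : ℕ) : ℝ) with hx
    set y := √((K + 1 + 1 : ℕ) : ℝ) with hy
    have hx0 : 0 < x := Real.sqrt_pos.mpr (by positivity)
    have hy0 : 0 < y := Real.sqrt_pos.mpr (by positivity)
    have hx2 : x * x = (K : ℝ) + 1 := by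
      rw [hx, Real.mul_self_sqrt (by positivity)]; push_cast; ring
    have hy2 : y * y = (K : ℝ) + 2 := by
      rw [hy, Real.mul_self_sqrt (by positivity)]; push_cast; ring
    have hxy : x ≤ y := Real.sqrt_le_sqrt (by push_cast; linarith)
    have h1 : w (K + 1 + 1) ≤ 2 / x - 2 / y := by
      unfold w
      have e1 : (((K + 1 + 1 : ℕ) : ℝ)) = y * y := by rw [hy2]; push_cast; ring
      rw [← hy, e1, div_sub_div _ _ hx0.ne' hy0.ne', div_le_div_iff₀ (by positivity) (by positivity)]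
      -- x*y ≤ (2*y - x*2) * (y*y*y)
      have h3 : (y - x) * (y + x) = 1 := by nlinarith
      have h4 : 0 < y + x := by linarith
      have h5 : 0 ≤ y - x := by linarith
      have h6 : x * (y + x) ≤ 2 * (y * y) := by nlinarith
      have h7 : x * ((y - x) * (y + x)) ≤ (y - x) * (2 * (y * y)) := by
        have := mul_le_mul_of_nonneg_left h6 h5
        nlinarith
      rw [h3, mul_one] at h7
      have h8 := mul_le_mul_of_nonneg_right h7 hy0.le
      nlinarith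
    linarith

theorem sum_w (K : ℕ) : ∑ n ∈ Icc 1 K, w n ≤ 3 := by
  rcases K with _ | K
  · simp
  · have := sum_w_aux K
    have h : 0 ≤ 2 / √((K + 1 : ℕ) : ℝ) := by positivity
    linarith

theorem w_mul (a b : ℕ) : w (a * b) = w a * w b := by
  unfold w
  push_cast
  rw [Real.sqrt_mul (Nat.cast_nonneg a)]
  rw [div_mul_div_comm]
  congr 1
  · ring
  · ring

/-- `∑ τ(g) g^(-3/2) ≤ 9` -/
theorem sum_tau (N : ℕ) : ∑ g ∈ Icc 1 N, (g.divisors.card : ℝ) * w g ≤ 9 := by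
  classical
  have h1 : ∀ g ∈ Icc 1 N, (g.divisors.card : ℝ) * w g
      = ∑ p ∈ g.divisorsAntidiagonal, w p.1 * w p.2 := by
    intro g hg
    rw [Nat.sum_divisorsAntidiagonal (fun i j => w i * w j), ← nsmul_eq_mul, ← Finset.sum_const]
    apply Finset.sum_congr rfl
    intro i hi
    rw [← w_mul, Nat.mul_div_cancel' (Nat.dvd_of_mem_divisors hi)]
  rw [Finset.sum_congr rfl h1, ← Finset.sum_biUnion]
  · have hsub : (Icc 1 N).biUnion (fun g => g.divisorsAntidiagonal) ⊆ (Icc 1 N) ×ˢ (Icc 1 N) := by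
      intro p hp
      rw [Finset.mem_biUnion] at hp
      obtain ⟨g, hg, hp⟩ := hp
      rw [Nat.mem_divisorsAntidiagonal] at hp
      rw [Finset.mem_Icc] at hg
      rw [Finset.mem_product, Finset.mem_Icc, Finset.mem_Icc]
      obtain ⟨hp1, hp2⟩ := hp
      have ha : p.1 ≠ 0 := by rintro h; rw [h, zero_mul] at hp1; omega
      have hb : p.2 ≠ 0 := by rintro h; rw [h, mul_zero] at hp1; omega
      have h3 : p.1 ≤ g := by rw [← hp1]; exact Nat.le_mul_of_pos_right _ (Nat.pos_of_ne_zero hb)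
      have h4 : p.2 ≤ g := by rw [← hp1]; exact Nat.le_mul_of_pos_left _ (Nat.pos_of_ne_zero ha)
      omega
    refine (Finset.sum_le_sum_of_subset_of_nonneg hsub
      (fun p _ _ => mul_nonneg (w_nonneg _) (w_nonneg _))).trans ?_
    rw [Finset.sum_product]
    have e : ∑ x ∈ Icc 1 N, ∑ y ∈ Icc 1 N, w x * w y = (∑ x ∈ Icc 1 N, w x) * (∑ y ∈ Icc 1 N, w y) := by
      rw [Finset.sum_mul_sum]
    have e' : ∑ x ∈ Icc 1 N, ∑ y ∈ Icc 1 N, w (x, y).1 * w (x, y).2
        = (∑ x ∈ Icc 1 N, w x) * (∑ y ∈ Icc 1 N, w y) := e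
    rw [e']
    have h0 : 0 ≤ ∑ x ∈ Icc 1 N, w x := Finset.sum_nonneg (fun x _ => w_nonneg x)
    have h3 := sum_w N
    nlinarith
  · intro g hg g' hg' hne
    rw [Function.onFun, Finset.disjoint_left]
    intro p hp hp'
    rw [Nat.mem_divisorsAntidiagonal] at hp hp'
    exact hne (hp.1.symm.trans hp'.1)

/-- the `b ≤ N` divisible by `g` -/
theorem sum_b (g N : ℕ) (hg : 1 ≤ g) :
    ∑ b ∈ (Icc 1 N).filter (fun b => g ∣ b), 1 / √(b : ℝ) ≤ 2 * √(N : ℝ) / g := by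
  classical
  have hg0 : (0 : ℝ) < g := by exact_mod_cast hg
  have himg : (Icc 1 N).filter (fun b => g ∣ b) ⊆ (Icc 1 (N / g)).image (fun k => g * k) := by
    intro b hb
    rw [Finset.mem_filter, Finset.mem_Icc] at hb
    obtain ⟨⟨hb1, hb2⟩, k, rfl⟩ := hb
    rw [Finset.mem_image]
    refine ⟨k, ?_, rfl⟩
    rw [Finset.mem_Icc]
    refine ⟨?_, ?_⟩
    · rcases Nat.eq_zero_or_pos k with rfl | h
      · simp at hb1
      · exact h
    · rw [Nat.le_div_iff_mul_le hg]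
      rw [mul_comm]; exact hb2
  refine (Finset.sum_le_sum_of_subset_of_nonneg himg (fun _ _ _ => by positivity)).trans ?_
  rw [Finset.sum_image (by
    intro x _ y _ h
    exact Nat.eq_of_mul_eq_mul_left hg h)]
  have e1 : ∀ k ∈ Icc 1 (N / g), 1 / √((g * k : ℕ) : ℝ) = (1 / √(g : ℝ)) * (1 / √(k : ℝ)) := by
    intro k _
    push_cast
    rw [Real.sqrt_mul hg0.le, div_mul_div_comm, one_mul]
  rw [Finset.sum_congr rfl e1, ← Finset.mul_sum]
  have h2 := sum_inv_sqrt (N / g)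
  have h3 : √((N / g : ℕ) : ℝ) ≤ √(N : ℝ) / √(g : ℝ) := by
    rw [← Real.sqrt_div (Nat.cast_nonneg N)]
    exact Real.sqrt_le_sqrt Nat.cast_div_le
  have hs : 0 < √(g : ℝ) := Real.sqrt_pos.mpr hg0
  calc 1 / √(g : ℝ) * ∑ i ∈ Icc 1 (N / g), 1 / √(i : ℝ)
      ≤ 1 / √(g : ℝ) * (2 * (√(N : ℝ) / √(g : ℝ))) := by
        apply mul_le_mul_of_nonneg_left _ (by positivity)
        linarith
    _ = 2 * √(N : ℝ) / (√(g : ℝ) * √(g : ℝ)) := by field_simp
    _ = 2 * √(N : ℝ) / g := by rw [Real.mul_self_sqrt hg0.le]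

/-- the `a ≤ M` with `g ∣ 4a` -/
theorem sum_a (g M : ℕ) (hg : 1 ≤ g) :
    ∑ a ∈ (Icc 1 M).filter (fun a => g ∣ 4 * a), 1 / √(a : ℝ) ≤ 8 * √(M : ℝ) / g := by
  classical
  have h1 := sum_b g (4 * M) hg
  have h4 : √((4 * M : ℕ) : ℝ) = 2 * √(M : ℝ) := by
    push_cast
    rw [Real.sqrt_mul (by norm_num), show (4 : ℝ) = 2 ^ 2 by norm_num, Real.sqrt_sq (by norm_num)]
  rw [h4] at h1
  have h2 : ∑ a ∈ (Icc 1 M).filter (fun a => g ∣ 4 * a), 1 / √(a : ℝ)
      ≤ 2 * ∑ b ∈ (Icc 1 (4 * M)).filter (fun b => g ∣ b), 1 / √(b : ℝ) := by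
    have himg : ((Icc 1 M).filter (fun a => g ∣ 4 * a)).image (fun a => 4 * a)
        ⊆ (Icc 1 (4 * M)).filter (fun b => g ∣ b) := by
      intro b hb
      rw [Finset.mem_image] at hb
      obtain ⟨a, ha, rfl⟩ := hb
      rw [Finset.mem_filter, Finset.mem_Icc] at ha ⊢
      exact ⟨by omega, ha.2⟩
    have h3 := Finset.sum_le_sum_of_subset_of_nonneg (f := fun b : ℕ => 1 / √(b : ℝ)) himg
      (fun _ _ _ => by positivity)
    rw [Finset.sum_image (by
      intro x _ y _ h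
      exact Nat.eq_of_mul_eq_mul_left (by norm_num) h)] at h3
    have e : ∑ a ∈ (Icc 1 M).filter (fun a => g ∣ 4 * a), 1 / √(a : ℝ)
        = 2 * ∑ a ∈ (Icc 1 M).filter (fun a => g ∣ 4 * a), 1 / √((4 * a : ℕ) : ℝ) := by
      rw [Finset.mul_sum]
      apply Finset.sum_congr rfl
      intro a ha
      rw [Finset.mem_filter, Finset.mem_Icc] at ha
      have ha0 : (0 : ℝ) < a := by exact_mod_cast ha.1.1
      have hsa : 0 < √(a : ℝ) := Real.sqrt_pos.mpr ha0
      have e4 : √((4 * a : ℕ) : ℝ) = 2 * √(a : ℝ) := by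
        push_cast
        rw [Real.sqrt_mul (by norm_num), show (4 : ℝ) = 2 ^ 2 by norm_num,
          Real.sqrt_sq (by norm_num)]
      rw [e4]
      field_simp
    rw [e]
    linarith
  refine h2.trans ?_
  calc 2 * ∑ b ∈ (Icc 1 (4 * M)).filter (fun b => g ∣ b), 1 / √(b : ℝ)
      ≤ 2 * (2 * (2 * √(M : ℝ)) / g) := by linarith
    _ = 8 * √(M : ℝ) / g := by ring

theorem t_V4 : S_V4 := by
  classical
  refine ⟨144, by norm_num, ?_⟩
  intro M N
  -- each term is bounded by the sum over all `g` dividing both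
  have hterm : ∀ a ∈ Icc 1 M, ∀ b ∈ Icc 1 N,
      ((Nat.gcd (4 * a) b).divisors.card : ℝ) * √(Nat.gcd (4 * a) b : ℝ) / √((a : ℝ) * b)
      ≤ ∑ g ∈ Icc 1 N, (g.divisors.card : ℝ) * √(g : ℝ) *
        ((if g ∣ 4 * a then 1 / √(a : ℝ) else 0) * (if g ∣ b then 1 / √(b : ℝ) else 0)) := by
    intro a ha b hb
    rw [Finset.mem_Icc] at ha hb
    have hmem : Nat.gcd (4 * a) b ∈ Icc 1 N := by
      rw [Finset.mem_Icc]
      refine ⟨Nat.gcd_pos_of_pos_right _ hb.1, ?_⟩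
      exact (Nat.le_of_dvd hb.1 (Nat.gcd_dvd_right _ _)).trans hb.2
    refine le_trans (le_of_eq ?_) (Finset.single_le_sum (f := fun g : ℕ =>
      (g.divisors.card : ℝ) * √(g : ℝ) *
        ((if g ∣ 4 * a then 1 / √(a : ℝ) else 0) * (if g ∣ b then 1 / √(b : ℝ) else 0))) ?_ hmem)
    · simp only [Nat.gcd_dvd_left, Nat.gcd_dvd_right, if_true]
      rw [Real.sqrt_mul (Nat.cast_nonneg a)]
      rw [div_mul_div_comm, one_mul, mul_one_div]
    · intro g _
      positivity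
  calc ∑ a ∈ Icc 1 M, ∑ b ∈ Icc 1 N,
        ((Nat.gcd (4 * a) b).divisors.card : ℝ) * √(Nat.gcd (4 * a) b : ℝ) / √((a : ℝ) * b)
      ≤ ∑ a ∈ Icc 1 M, ∑ b ∈ Icc 1 N, ∑ g ∈ Icc 1 N, (g.divisors.card : ℝ) * √(g : ℝ) *
        ((if g ∣ 4 * a then 1 / √(a : ℝ) else 0) * (if g ∣ b then 1 / √(b : ℝ) else 0)) :=
        Finset.sum_le_sum (fun a ha => Finset.sum_le_sum (fun b hb => hterm a ha b hb))
    _ = ∑ g ∈ Icc 1 N, ∑ a ∈ Icc 1 M, ∑ b ∈ Icc 1 N, (g.divisors.card : ℝ) * √(g : ℝ) *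
        ((if g ∣ 4 * a then 1 / √(a : ℝ) else 0) * (if g ∣ b then 1 / √(b : ℝ) else 0)) := by
        rw [Finset.sum_comm' (s := Icc 1 N) (t := fun _ => Icc 1 M) (t' := Icc 1 M)
          (s' := fun _ => Icc 1 N) (by intro x y; tauto)]
        apply Finset.sum_congr rfl
        intro a _
        exact Finset.sum_comm
    _ ≤ ∑ g ∈ Icc 1 N, 16 * √((M : ℝ) * N) * ((g.divisors.card : ℝ) * w g) := by
        apply Finset.sum_le_sum
        intro g hg
        rw [Finset.mem_Icc] at hg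
        have hg0 : (0 : ℝ) < g := by exact_mod_cast hg.1
        have e1 : ∑ a ∈ Icc 1 M, ∑ b ∈ Icc 1 N, (g.divisors.card : ℝ) * √(g : ℝ) *
            ((if g ∣ 4 * a then 1 / √(a : ℝ) else 0) * (if g ∣ b then 1 / √(b : ℝ) else 0))
            = (g.divisors.card : ℝ) * √(g : ℝ) *
              ((∑ a ∈ (Icc 1 M).filter (fun a => g ∣ 4 * a), 1 / √(a : ℝ)) *
               (∑ b ∈ (Icc 1 N).filter (fun b => g ∣ b), 1 / √(b : ℝ))) := by
          rw [Finset.sum_filter, Finset.sum_filter, Finset.sum_mul_sum, Finset.mul_sum]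
          apply Finset.sum_congr rfl
          intro a _
          rw [Finset.mul_sum]
        rw [e1]
        have ha := sum_a g M hg.1
        have hb := sum_b g N hg.1
        have ha0 : 0 ≤ ∑ a ∈ (Icc 1 M).filter (fun a => g ∣ 4 * a), 1 / √(a : ℝ) :=
          Finset.sum_nonneg (fun _ _ => by positivity)
        have hb0 : 0 ≤ ∑ b ∈ (Icc 1 N).filter (fun b => g ∣ b), 1 / √(b : ℝ) :=
          Finset.sum_nonneg (fun _ _ => by positivity)
        have hprod := mul_le_mul ha hb hb0 (ha0.trans ha)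
        have hsg : 0 < √(g : ℝ) := Real.sqrt_pos.mpr hg0
        have hgg : √(g : ℝ) * √(g : ℝ) = g := Real.mul_self_sqrt hg0.le
        calc (g.divisors.card : ℝ) * √(g : ℝ) *
              ((∑ a ∈ (Icc 1 M).filter (fun a => g ∣ 4 * a), 1 / √(a : ℝ)) *
               (∑ b ∈ (Icc 1 N).filter (fun b => g ∣ b), 1 / √(b : ℝ)))
            ≤ (g.divisors.card : ℝ) * √(g : ℝ) * (8 * √(M : ℝ) / g * (2 * √(N : ℝ) / g)) :=
              mul_le_mul_of_nonneg_left hprod (by positivity)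
          _ = 16 * √((M : ℝ) * N) * ((g.divisors.card : ℝ) * w g) := by
              rw [Real.sqrt_mul (Nat.cast_nonneg M)]
              unfold w
              have : (g : ℝ) * (g : ℝ) = (g : ℝ) * (√(g : ℝ) * √(g : ℝ)) := by rw [hgg]
              rw [div_mul_div_comm, this]
              field_simp
              ring
    _ = 16 * √((M : ℝ) * N) * ∑ g ∈ Icc 1 N, (g.divisors.card : ℝ) * w g := by
        rw [Finset.mul_sum]
    _ ≤ 16 * √((M : ℝ) * N) * 9 := by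
        apply mul_le_mul_of_nonneg_left (sum_tau N) (by positivity)
    _ = 144 * √((M : ℝ) * N) := by ring

end Pool.Agent.L0h85.VL
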