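import Pool.Agent.L0h45.VL.Stm

/-! Module V3 of project VL (helper45), written by helper85. -/

set_option autoImplicit false

open Finset

namespace Pool.Agent.L0h85.VL

open Pool.Agent.L0h45.VL

/-- the integers of `[-L, L]` in one class modulo `h` -/
theorem interval_count (S : Finset ℤ) (L : ℝ) (hL : 0 ≤ L) (h : ℕ) (hh : 1 ≤ h) (r : ℤ)
    (hS : ∀ c ∈ S, (h : ℤ) ∣ c - r ∧ |(c : ℝ)| ≤ L) : (S.card : ℝ) ≤ 2 * L / h + 1 := by
  have hh0 : (0 : ℝ) < h := by exact_mod_cast hh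
  rcases S.eq_empty_or_nonempty with rfl | hne
  · simp only [Finset.card_empty, Nat.cast_zero]
    positivity
  set m := S.min' hne with hm
  have hmS : m ∈ S := S.min'_mem hne
  have hle : ∀ c ∈ S, m ≤ c := fun c hc => S.min'_le c hc
  have hdiv : ∀ c ∈ S, (h : ℤ) ∣ c - m := by
    intro c hc
    have h1 := (hS c hc).1
    have h2 := (hS m hmS).1
    have : c - m = (c - r) - (m - r) := by ring
    rw [this]
    exact dvd_sub h1 h2
  have hcard : S.card ≤ (Finset.range (⌊2 * L / h⌋₊ + 1)).card := by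
    refine Finset.card_le_card_of_injOn (fun c => ((c - m) / (h : ℤ)).toNat) ?_ ?_
    · intro c hc
      have hc' : c ∈ S := hc
      obtain ⟨k, hk⟩ := hdiv c hc'
      have hk0 : 0 ≤ k := by
        have h0 : 0 ≤ c - m := sub_nonneg.mpr (hle c hc')
        rw [hk] at h0
        have hhz : (0 : ℤ) < h := by exact_mod_cast hh
        exact nonneg_of_mul_nonneg_right h0 hhz
      have hq : (c - m) / (h : ℤ) = k := by
        rw [hk]
        have hhz : (h : ℤ) ≠ 0 := by
          have : (0 : ℤ) < h := by exact_mod_cast hh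
          exact this.ne'
        exact Int.mul_ediv_cancel_left k hhz
      have hb : (k : ℝ) ≤ 2 * L / h := by
        rw [le_div_iff₀ hh0]
        have e1 : ((c : ℝ) - m) = h * k := by exact_mod_cast hk
        have e2 := (abs_le.mp (hS c hc').2).2
        have e3 := (abs_le.mp (hS m hmS).2).1
        nlinarith
      have : ((c - m) / (h : ℤ)).toNat < ⌊2 * L / h⌋₊ + 1 := by
        rw [hq, Nat.lt_succ_iff]
        apply Nat.le_floor
        have : ((k.toNat : ℕ) : ℝ) = (k : ℝ) := by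
          have h1 : ((k.toNat : ℕ) : ℤ) = k := Int.toNat_of_nonneg hk0
          exact_mod_cast h1
        rw [this]
        exact hb
      exact Finset.mem_coe.mpr (Finset.mem_range.mpr this)
    · intro c hc c' hc' heq
      have hcS : c ∈ S := hc
      have hcS' : c' ∈ S := hc'
      obtain ⟨k, hk⟩ := hdiv c hcS
      obtain ⟨k', hk'⟩ := hdiv c' hcS'
      have hhz : (0 : ℤ) < h := by exact_mod_cast hh
      have hk0 : 0 ≤ k := by
        have h0 : 0 ≤ c - m := sub_nonneg.mpr (hle c hcS)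
        rw [hk] at h0
        exact nonneg_of_mul_nonneg_right h0 hhz
      have hk0' : 0 ≤ k' := by
        have h0 : 0 ≤ c' - m := sub_nonneg.mpr (hle c' hcS')
        rw [hk'] at h0
        exact nonneg_of_mul_nonneg_right h0 hhz
      have hq : (c - m) / (h : ℤ) = k := by
        rw [hk]; exact Int.mul_ediv_cancel_left k hhz.ne'
      have hq' : (c' - m) / (h : ℤ) = k' := by
        rw [hk']; exact Int.mul_ediv_cancel_left k' hhz.ne'
      have heq' : ((c - m) / (h : ℤ)).toNat = ((c' - m) / (h : ℤ)).toNat := heq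
      rw [hq, hq'] at heq'
      have : k = k' := by
        rw [← Int.toNat_of_nonneg hk0, ← Int.toNat_of_nonneg hk0', heq']
      subst this
      linarith
  rw [Finset.card_range] at hcard
  have h1 : (S.card : ℝ) ≤ (⌊2 * L / h⌋₊ : ℝ) + 1 := by exact_mod_cast hcard
  have h2 : (⌊2 * L / h⌋₊ : ℝ) ≤ 2 * L / h := Nat.floor_le (by positivity)
  linarith

/-- each piece has at most `4 L / √g` elements -/
theorem piece (g : ℕ) (L : ℝ) (hg : 1 ≤ g) (hL : 1 ≤ L) (hgL : (g : ℝ) ≤ 4 * L) (c₀ : ℤ)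
    (d : ℕ) (hd : d ∣ g) (S : Finset ℤ)
    (hS : ∀ c ∈ S, (d : ℤ) ∣ c - c₀ ∧ ((g / d : ℕ) : ℤ) ∣ c + c₀ ∧ |(c : ℝ)| ≤ L) :
    (S.card : ℝ) ≤ 4 * (L / √(g : ℝ)) := by
  have hg0 : (0 : ℝ) < g := by exact_mod_cast hg
  have hd0 : 0 < d := Nat.pos_of_dvd_of_pos hd hg
  have hgd0 : 0 < g / d := Nat.div_pos (Nat.le_of_dvd hg hd) hd0
  have hsg : 0 < √(g : ℝ) := Real.sqrt_pos.mpr hg0
  -- √g ≤ 2 L
  have hsL : √(g : ℝ) ≤ 2 * L := by
    rw [Real.sqrt_le_left (by linarith)]
    nlinarith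
  have h1L : 1 ≤ 2 * L / √(g : ℝ) := by
    rw [le_div_iff₀ hsg]; linarith
  have key : ∀ h : ℕ, 1 ≤ h → √(g : ℝ) ≤ h → ∀ r : ℤ, (∀ c ∈ S, (h : ℤ) ∣ c - r) →
      (S.card : ℝ) ≤ 4 * (L / √(g : ℝ)) := by
    intro h hh hgh r hr
    have h1 := interval_count S L (by linarith) h hh r (fun c hc => ⟨hr c hc, (hS c hc).2.2⟩)
    have h2 : 2 * L / h ≤ 2 * L / √(g : ℝ) := by
      apply div_le_div_of_nonneg_left (by linarith) hsg hgh
    have h3 : 4 * (L / √(g : ℝ)) = 2 * L / √(g : ℝ) + 2 * L / √(g : ℝ) := by ring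
    rw [h3]
    linarith
  have hmul : d * (g / d) = g := Nat.mul_div_cancel' hd
  rcases le_total (√(g : ℝ)) (d : ℝ) with h | h
  · exact key d hd0 h c₀ (fun c hc => (hS c hc).1)
  · have h' : √(g : ℝ) ≤ ((g / d : ℕ) : ℝ) := by
      have e1 : (d : ℝ) * ((g / d : ℕ) : ℝ) = g := by exact_mod_cast hmul
      have e2 : √(g : ℝ) * √(g : ℝ) = g := Real.mul_self_sqrt hg0.le
      have e3 : (0 : ℝ) < ((g / d : ℕ) : ℝ) := by exact_mod_cast hgd0
      by_contra hcon
      push Not at hcon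
      have : (d : ℝ) * ((g / d : ℕ) : ℝ) < √(g : ℝ) * √(g : ℝ) := by
        calc (d : ℝ) * ((g / d : ℕ) : ℝ) ≤ √(g : ℝ) * ((g / d : ℕ) : ℝ) := by
              apply mul_le_mul_of_nonneg_right h e3.le
          _ < √(g : ℝ) * √(g : ℝ) := by
              apply mul_lt_mul_of_pos_left hcon hsg
      linarith
    refine key (g / d) hgd0 h' (-c₀) (fun c hc => ?_)
    have := (hS c hc).2.1
    rwa [sub_neg_eq_add]

theorem t_V3 : S_V3 := by
  intro g L n hg hL hgL S hS
  classical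
  rcases S.eq_empty_or_nonempty with rfl | ⟨c₀, hc₀⟩
  · simp only [Finset.card_empty, Nat.cast_zero]
    positivity
  have hcov : S ⊆ g.divisors.biUnion (fun d => S.filter (fun c => (d : ℤ) ∣ c - c₀ ∧
      ((g / d : ℕ) : ℤ) ∣ c + c₀)) := by
    intro c hc
    have hprod : (g : ℤ) ∣ (c - c₀) * (c + c₀) := by
      have h1 := (hS c hc).1
      have h2 := (hS c₀ hc₀).1
      have : (c - c₀) * (c + c₀) = (c ^ 2 - n) - (c₀ ^ 2 - n) := by ring
      rw [this]
      exact dvd_sub h1 h2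
    refine Finset.mem_biUnion.mpr ⟨Nat.gcd g (c - c₀).natAbs, ?_, ?_⟩
    · rw [Nat.mem_divisors]
      exact ⟨Nat.gcd_dvd_left _ _, by omega⟩
    · rw [Finset.mem_filter]
      refine ⟨hc, ?_, ?_⟩
      · have : Nat.gcd g (c - c₀).natAbs ∣ (c - c₀).natAbs := Nat.gcd_dvd_right _ _
        exact Int.natCast_dvd.mpr this
      · have hnat : g ∣ (c - c₀).natAbs * (c + c₀).natAbs := by
          rw [← Int.natAbs_mul]
          exact Int.natCast_dvd.mp hprod
        have hgcdpos : 0 < Nat.gcd g (c - c₀).natAbs := Nat.gcd_pos_of_pos_left _ hg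
        have : g / Nat.gcd g (c - c₀).natAbs ∣ (c + c₀).natAbs := by
          have hcop : Nat.Coprime (g / Nat.gcd g (c - c₀).natAbs)
              ((c - c₀).natAbs / Nat.gcd g (c - c₀).natAbs) :=
            Nat.coprime_div_gcd_div_gcd hgcdpos
          apply hcop.dvd_of_dvd_mul_left
          obtain ⟨k, hk⟩ := hnat
          refine ⟨k, ?_⟩
          have e1 := Nat.mul_div_cancel' (Nat.gcd_dvd_left g (c - c₀).natAbs)
          have e2 := Nat.mul_div_cancel' (Nat.gcd_dvd_right g (c - c₀).natAbs)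
          apply Nat.eq_of_mul_eq_mul_left hgcdpos
          rw [← mul_assoc, e2, ← mul_assoc, e1, hk]
        exact Int.natCast_dvd.mpr this
  have hcard : (S.card : ℝ) ≤ ∑ d ∈ g.divisors, 4 * (L / √(g : ℝ)) := by
    have h1 : S.card ≤ ∑ d ∈ g.divisors, (S.filter (fun c => (d : ℤ) ∣ c - c₀ ∧
        ((g / d : ℕ) : ℤ) ∣ c + c₀)).card :=
      (Finset.card_le_card hcov).trans Finset.card_biUnion_le
    have h2 : (S.card : ℝ) ≤ ∑ d ∈ g.divisors, ((S.filter (fun c => (d : ℤ) ∣ c - c₀ ∧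
        ((g / d : ℕ) : ℤ) ∣ c + c₀)).card : ℝ) := by exact_mod_cast h1
    refine h2.trans (Finset.sum_le_sum ?_)
    intro d hd
    refine piece g L hg hL hgL c₀ d (Nat.dvd_of_mem_divisors hd) _ ?_
    intro c hc
    rw [Finset.mem_filter] at hc
    exact ⟨hc.2.1, hc.2.2, (hS c hc.1).2⟩
  rw [Finset.sum_const, nsmul_eq_mul] at hcard
  calc (S.card : ℝ) ≤ (g.divisors.card : ℝ) * (4 * (L / √(g : ℝ))) := hcard
    _ = 4 * (g.divisors.card : ℝ) * (L / √(g : ℝ)) := by ring

end Pool.Agent.L0h85.VL
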